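import Pool.Agent.PCS.Stmts

/-!
# PCS, row SPA: the spine, numbers
-/

set_option autoImplicit false

open scoped Pointwise

namespace Pool.Agent.PCS.H17

/-- one step of the spine is a neutral child -/
lemma stp_neu {Γ V : Type} [Group Γ] [MulAction Γ V] {T : Tree Γ V} {S : Finset Γ}
    {rk : Γ → V → ℕ} {u : V} (h : ∃ x, Neu T S rk u x) : Neu T S rk u (stp T S rk u) := by
  unfold stp
  rw [dif_pos h]
  exact h.choose_spec

lemma step {Γ V : Type} [Group Γ] [MulAction Γ V] {T : Tree Γ V} {S : Finset Γ}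
    {rk : Γ → V → ℕ} {n : ℕ} {v : V} (h : Alive T S rk (n + 1) v) :
    Neu T S rk ((stp T S rk)^[n] v) ((stp T S rk)^[n + 1] v) := by
  rw [Function.iterate_succ_apply']
  exact stp_neu (h n (Nat.lt_succ_self n))

lemma alive_pred {Γ V : Type} [Group Γ] [MulAction Γ V] {T : Tree Γ V} {S : Finset Γ}
    {rk : Γ → V → ℕ} {n : ℕ} {v : V} (h : Alive T S rk (n + 1) v) : Alive T S rk n v :=
  fun m hm => h m (Nat.lt_succ_of_lt hm)

theorem spa (hLEV : LevStmt) (_hRKS : RksStmt) (hNEU : NeuStmt) : SpaStmt := by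
  intro Γ V _ _ T S rk R hR hS
  have main : ∀ n v, Alive T S rk n v → N Γ ((stp T S rk)^[n] v) = N Γ v ∧
      sig S rk ((stp T S rk)^[n] v) = sig S rk v ∧ del S rk ((stp T S rk)^[n] v) = del S rk v ∧
      T.lv ((stp T S rk)^[n] v) = T.lv v + n := by
    intro n v
    induction n with
    | zero =>
      intro _
      exact ⟨rfl, rfl, rfl, rfl⟩
    | succ n ih =>
      intro h
      obtain ⟨i1, i2, i3, i4⟩ := ih (alive_pred h)
      have h1 := step h
      obtain ⟨d1, _⟩ := hNEU Γ V T S rk R hR hS _ _ h1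
      obtain ⟨_, n2, n3, n4⟩ := h1
      refine ⟨n3.trans i1, n4.trans i2, d1.trans i3, ?_⟩
      rw [n2, i4]
      rfl
  refine ⟨main, fun n v h => (step h).1, ?_⟩
  rintro n v y ⟨ha, hp, hl, hne⟩ hd
  obtain ⟨i1, _, i3, _⟩ := main n v (alive_pred ha)
  obtain ⟨_, d2⟩ := hNEU Γ V T S rk R hR hS _ _ (step ha)
  refine ⟨?_, ?_⟩
  · have h1 := d2 (by rw [i3]; exact hd) y hp hl hne
    rwa [i3] at h1
  · have h1 := (((hLEV Γ V T).2 y).2.2 (by rw [hl]; exact Nat.succ_pos _)).2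
    rwa [hp, i1] at h1

end Pool.Agent.PCS.H17
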